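import Mathlib

set_option autoImplicit false

open Filter Topology

namespace Pool.Agent.N242.WM

section

variable {𝕜 E : Type*} [RCLike 𝕜] [NormedAddCommGroup E] [NormedSpace 𝕜 E]

/-- ultrafilter limits of bounded sequences of functionals -/
theorem exists_ultralimit (U : Ultrafilter ℕ) (g : ℕ → (E →L[𝕜] 𝕜)) (R : ℝ) (hg : ∀ n, ‖g n‖ ≤ R) :
    ∃ G : E →L[𝕜] 𝕜, ‖G‖ ≤ R ∧ ∀ w, Tendsto (fun n => g n w) U (𝓝 (G w)) := by
  have hK := WeakDual.isCompact_closedBall (𝕜 := 𝕜) (E := E) 0 R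
  have h1 : ∀ n, StrongDual.toWeakDual (g n) ∈
      (WeakDual.toStrongDual ⁻¹' Metric.closedBall (0 : StrongDual 𝕜 E) R) := by
    intro n
    simpa using hg n
  have h2 := (isCompact_iff_ultrafilter_le_nhds.1 hK) (U.map (fun n => StrongDual.toWeakDual (g n)))
    (by
      rw [le_principal_iff]
      exact Filter.mem_map.2 (Filter.Eventually.of_forall h1))
  obtain ⟨G, hGR, hG⟩ := h2
  refine ⟨WeakDual.toStrongDual G, by simpa using hGR, fun w => ?_⟩
  have h3 : Tendsto (fun n => StrongDual.toWeakDual (g n)) U (𝓝 G) := hG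
  have h4 := ((WeakDual.eval_continuous w).tendsto G).comp h3
  exact h4

/-- a point outside a closed subspace is separated by a functional -/
theorem exists_sep {X : Type*} [NormedAddCommGroup X] [NormedSpace 𝕜 X] (Y : Submodule 𝕜 X)
    (hY : IsClosed (Y : Set X)) (x : X) (hx : x ∉ Y) :
    ∃ Λ : X →L[𝕜] 𝕜, (∀ y ∈ Y, Λ y = 0) ∧ Λ x ≠ 0 := by
  have := hY
  have h1 : (Submodule.Quotient.mk x : X ⧸ Y) ≠ 0 := by
    rwa [Ne, Submodule.Quotient.mk_eq_zero]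
  have h1' : ‖(Submodule.Quotient.mk x : X ⧸ Y)‖ ≠ 0 := norm_ne_zero_iff.2 h1
  obtain ⟨g, -, hg⟩ := exists_dual_vector 𝕜 (Submodule.Quotient.mk x : X ⧸ Y) h1'
  refine ⟨g.comp Y.mkQL, fun y hy => ?_, ?_⟩
  · have : Y.mkQL y = 0 := (Submodule.Quotient.mk_eq_zero Y).2 hy
    rw [ContinuousLinearMap.comp_apply, this, map_zero]
  · rw [ContinuousLinearMap.comp_apply]
    have h2 : Y.mkQL x = Submodule.Quotient.mk x := rfl
    rw [h2, hg]
    exact_mod_cast h1'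

/-- A countable norming set for a separable closed subspace of the dual. -/
theorem exists_D (Y : Submodule 𝕜 (E →L[𝕜] 𝕜))
    (hY : TopologicalSpace.IsSeparable (Y : Set (E →L[𝕜] 𝕜))) :
    ∃ D : ℕ × ℕ → E, ∀ h ∈ Y, (∀ p, h (D p) = 0) → h = 0 := by
  obtain ⟨c, hc, hYc⟩ := hY
  have hcne : c.Nonempty := by
    by_contra h
    rw [Set.not_nonempty_iff_eq_empty] at h
    rw [h, closure_empty] at hYc
    exact hYc Y.zero_mem
  obtain ⟨d, hd⟩ := hc.exists_eq_range hcne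
  have hx : ∀ p : ℕ × ℕ, ∃ x : E, ‖x‖ ≤ 1 ∧ ‖d p.1‖ - 1 / ((p.2 : ℝ) + 1) ≤ ‖d p.1 x‖ := by
    intro p
    have h1 : ‖d p.1‖ - 1 / ((p.2 : ℝ) + 1) < ‖d p.1‖ := by
      have : 0 < 1 / ((p.2 : ℝ) + 1) := by positivity
      linarith
    obtain ⟨x, hx1, hx2⟩ := (d p.1).exists_lt_apply_of_lt_opNorm h1
    exact ⟨x, hx1.le, hx2.le⟩
  choose D hD1 hD2 using hx
  refine ⟨D, fun h hh h0 => ?_⟩
  rw [← norm_le_zero_iff]
  refine le_of_forall_pos_le_add fun ε hε => ?_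
  obtain ⟨b, hb, hbd⟩ := Metric.mem_closure_iff.1 (hYc hh) (ε / 3) (by linarith)
  rw [hd] at hb
  obtain ⟨i, rfl⟩ := hb
  obtain ⟨j, hj⟩ := exists_nat_one_div_lt (show 0 < ε / 3 by linarith)
  have h1 := hD2 (i, j)
  rw [dist_eq_norm] at hbd
  have h2 : ‖d i (D (i, j))‖ ≤ ε / 3 := by
    have h3 : d i (D (i, j)) = - ((h - d i) (D (i, j))) := by
      rw [sub_apply, h0]; ring
    rw [h3, norm_neg]
    have h4 := (h - d i).le_opNorm (D (i, j))
    have h5 := mul_le_mul_of_nonneg_left (hD1 (i, j)) (norm_nonneg (h - d i))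
    linarith
  have h3 : ‖h‖ ≤ ‖h - d i‖ + ‖d i‖ := by
    have := norm_add_le (h - d i) (d i)
    rwa [sub_add_cancel] at this
  simp only at h1
  linarith

theorem finiteDimensional_of_map {V W : Type*} [NormedAddCommGroup V] [NormedSpace 𝕜 V]
    [NormedAddCommGroup W] [NormedSpace 𝕜 W] [FiniteDimensional 𝕜 W] (J : V → W)
    (hadd : ∀ x y, J (x + y) = J x + J y) (hsmul : ∀ (c : 𝕜) x, J (c • x) = c • J x)
    (hinj : Function.Injective J) : FiniteDimensional 𝕜 V :=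
  FiniteDimensional.of_injective ({ toFun := J, map_add' := hadd, map_smul' := hsmul } : V →ₗ[𝕜] W)
    hinj

theorem exists_null [CompleteSpace E]
    (hR : Function.Surjective (NormedSpace.inclusionInDoubleDual 𝕜 E))
    (hE : ¬ FiniteDimensional 𝕜 E) :
    ∃ g : ℕ → (E →L[𝕜] 𝕜), (∀ n, ‖g n‖ = 1) ∧ ∀ x, Tendsto (fun n => g n x) atTop (𝓝 0) := by
  have hdual : ¬ FiniteDimensional 𝕜 (E →L[𝕜] 𝕜) := by
    intro hfd
    apply hE
    have hinj : Function.Injective (NormedSpace.inclusionInDoubleDual 𝕜 E) :=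
      (NormedSpace.inclusionInDoubleDualLi 𝕜 (E := E)).injective
    have : FiniteDimensional 𝕜 (StrongDual 𝕜 (StrongDual 𝕜 E)) := by
      change FiniteDimensional 𝕜 ((E →L[𝕜] 𝕜) →L[𝕜] 𝕜)
      infer_instance
    exact finiteDimensional_of_map (𝕜 := 𝕜) (V := E) (W := StrongDual 𝕜 (StrongDual 𝕜 E))
      (fun x => NormedSpace.inclusionInDoubleDual 𝕜 E x) (fun x y => map_add _ _ _)
      (fun c x => map_smul _ _ _) hinj
  obtain ⟨R, f, hR1, hfR, hfp⟩ := exists_seq_norm_le_one_le_norm_sub hdual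
  set Y : Submodule 𝕜 (E →L[𝕜] 𝕜) := (Submodule.span 𝕜 (Set.range f)).topologicalClosure with hY
  have hYsep : TopologicalSpace.IsSeparable (Y : Set (E →L[𝕜] 𝕜)) := by
    rw [hY, Submodule.topologicalClosure_coe]
    exact ((Set.countable_range f).isSeparable.span (R := 𝕜)).closure
  have hfY : ∀ n, f n ∈ Y := fun n =>
    Submodule.le_topologicalClosure _ (Submodule.subset_span ⟨n, rfl⟩)
  have hYc : IsClosed (Y : Set (E →L[𝕜] 𝕜)) := Submodule.isClosed_topologicalClosure _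
  obtain ⟨D, hD⟩ := exists_D Y hYsep
  have hcomp : IsCompact (Set.pi Set.univ fun p : ℕ × ℕ =>
      Metric.closedBall (0 : 𝕜) (R * ‖D p‖)) :=
    isCompact_univ_pi fun p => isCompact_closedBall _ _
  obtain ⟨L, -, φ, hφ, hL⟩ := hcomp.tendsto_subseq (x := fun n p => f n (D p)) (fun n p _ => by
    rw [mem_closedBall_zero_iff]
    exact (f n).le_of_opNorm_le (hfR n) _)
  have hL' : ∀ p, Tendsto (fun n => f (φ n) (D p)) atTop (𝓝 (L p)) := fun p =>
    (tendsto_pi_nhds.1 hL) p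
  -- ultrafilter limits are in Y
  have hlim : ∀ V : Ultrafilter ℕ, (V : Filter ℕ) ≤ atTop → ∃ G : E →L[𝕜] 𝕜, G ∈ Y ∧
      (∀ w, Tendsto (fun n => f (φ n) w) V (𝓝 (G w))) ∧ ∀ p, G (D p) = L p := by
    intro V hV
    obtain ⟨G, -, hG⟩ := exists_ultralimit V (fun n => f (φ n)) R (fun n => hfR _)
    refine ⟨G, ?_, hG, fun p => tendsto_nhds_unique (hG (D p)) ((hL' p).mono_left hV)⟩
    by_contra hGY
    obtain ⟨Λ, hΛ1, hΛ2⟩ := exists_sep Y hYc G hGY
    obtain ⟨x, hx⟩ := hR Λ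
    have h1 : ∀ g : E →L[𝕜] 𝕜, Λ g = g x := fun g => by
      rw [← hx]; rfl
    have h2 : Tendsto (fun n => f (φ n) x) V (𝓝 0) := by
      refine tendsto_const_nhds.congr fun n => ?_
      rw [← h1, hΛ1 _ (hfY _)]
    exact hΛ2 (by rw [h1]; exact tendsto_nhds_unique (hG x) h2)
  obtain ⟨G, hGY, hG, hGD⟩ := hlim (hyperfilter ℕ) Nat.hyperfilter_le_atTop
  have hconv : ∀ w, Tendsto (fun n => f (φ n) w) atTop (𝓝 (G w)) := by
    intro w
    rw [tendsto_iff_ultrafilter]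
    intro V hV
    obtain ⟨G', hGY', hG', hGD'⟩ := hlim V hV
    have : G' - G = 0 := hD _ (Y.sub_mem hGY' hGY) fun p => by
      rw [sub_apply, hGD, hGD', sub_self]
    rw [← sub_eq_zero.1 this]
    exact hG' w
  -- normalise
  set e : ℕ → (E →L[𝕜] 𝕜) := fun n => f (φ n) - G with he
  have hep : ∀ m n, m ≠ n → 1 ≤ ‖e m - e n‖ := by
    intro m n hmn
    have : e m - e n = f (φ m) - f (φ n) := by simp [he]
    rw [this]
    exact hfp (hφ.injective.ne hmn)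
  obtain ⟨N, hN⟩ : ∃ N, ∀ n ≥ N, 1 / 2 ≤ ‖e n‖ := by
    by_cases h : ∃ m, ‖e m‖ < 1 / 2
    · obtain ⟨m, hm⟩ := h
      refine ⟨m + 1, fun n hn => ?_⟩
      have h1 := hep n m (by omega)
      have h2 := norm_sub_le (e n) (e m)
      linarith
    · push Not at h
      exact ⟨0, fun n _ => h n⟩
  have hpos : ∀ n, 0 < ‖e (n + N)‖ := fun n => lt_of_lt_of_le (by norm_num) (hN _ (by omega))
  refine ⟨fun n => (‖e (n + N)‖⁻¹ : 𝕜) • e (n + N), fun n => norm_smul_inv_norm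
    (norm_pos_iff.1 (hpos n)), fun x => ?_⟩
  have h1 : Tendsto (fun n => e (n + N) x) atTop (𝓝 0) := by
    have h2 : Tendsto (fun n => e n x) atTop (𝓝 0) := by
      simpa [he] using (hconv x).sub_const (G x)
    exact (tendsto_add_atTop_iff_nat N).2 h2
  rw [tendsto_zero_iff_norm_tendsto_zero] at h1 ⊢
  refine squeeze_zero (g := fun n => 2 * ‖e (n + N) x‖) (fun n => norm_nonneg _) (fun n => ?_)
    (by simpa using h1.const_mul 2)
  have h3 : ((‖e (n + N)‖⁻¹ : 𝕜) • e (n + N)) x = (‖e (n + N)‖⁻¹ : 𝕜) * e (n + N) x := rfl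
  rw [h3, norm_mul, norm_inv, RCLike.norm_coe_norm]
  refine mul_le_mul_of_nonneg_right ?_ (norm_nonneg _)
  have h4 := hN (n + N) (by omega)
  have h5 : ‖e (n + N)‖⁻¹ ≤ (1 / 2)⁻¹ := inv_anti₀ (by norm_num) h4
  linarith

end

end Pool.Agent.N242.WM
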