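import Pool.Agent.N242.WM.NR
import Pool.Agent.N242.WM.Null

set_option autoImplicit false

open Filter Topology Finset

namespace Pool.Agent.N242.WM

section

variable {𝕜 E : Type*} [RCLike 𝕜] [NormedAddCommGroup E] [NormedSpace 𝕜 E]

theorem lemU (hW : WMP 𝕜 E (lp (fun _ : ℕ => 𝕜) ⊤)) (g : ℕ → (E →L[𝕜] 𝕜)) (hg : ∀ n, ‖g n‖ = 1)
    (hg0 : ∀ x, Tendsto (fun n => g n x) atTop (𝓝 0)) (f : E →L[𝕜] 𝕜) (δ : ℝ) (hδ : 0 < δ) :
    ∀ᶠ n in atTop, ‖f + g n‖ < max ‖f‖ 1 + δ := by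
  by_contra hcon
  rw [not_eventually] at hcon
  obtain ⟨φ, hφ, hφ2⟩ := extraction_of_frequently_atTop hcon
  have hbd : ∀ n, ‖f + g (φ n)‖ ∈ Metric.closedBall (0 : ℝ) (‖f‖ + 1) := by
    intro n
    rw [mem_closedBall_zero_iff, norm_norm]
    refine (norm_add_le _ _).trans ?_
    rw [hg]
  obtain ⟨c, -, χ, hχ, hc⟩ := tendsto_subseq_of_bounded Metric.isBounded_closedBall hbd
  have hc1 : max ‖f‖ 1 + δ ≤ c := ge_of_tendsto' hc fun n => not_lt.1 (hφ2 (χ n))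
  have hωt : Tendsto (fun n => φ (χ n)) atTop atTop := hφ.tendsto_atTop.comp hχ.tendsto_atTop
  obtain ⟨x, hx1, hx2⟩ := keyG hW (fun n => f + g (φ (χ n))) f c 1 hc zero_le_one
    (by linarith [le_max_right ‖f‖ 1]) (fun n => by rw [add_sub_cancel_left, hg])
  have h1 : Tendsto (fun n => ‖(f + g (φ (χ n))) x‖) atTop (𝓝 ‖f x‖) := by
    have h2 := ((hg0 x).comp hωt).const_add (f x)
    rw [add_zero] at h2
    exact h2.norm
  have h2 : ‖f x‖ ≤ ‖f‖ := by
    have := f.le_opNorm x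
    rwa [hx1, mul_one] at this
  have h3 : ∀ᶠ n in atTop, ‖(f + g (φ (χ n))) x‖ < c - δ / 2 :=
    h1.eventually_lt_const (by linarith [le_max_left ‖f‖ 1])
  obtain ⟨n, hn1, hn2⟩ := ((hx2 (δ / 2) (by linarith)).and_eventually h3).exists
  linarith

/-- norming vector -/
theorem exists_norming (f : E →L[𝕜] 𝕜) (hf : ‖f‖ = 1) (δ : ℝ) (hδ : 0 < δ) :
    ∃ x : E, ‖x‖ ≤ 1 ∧ 1 - δ ≤ RCLike.re (f x) := by
  obtain ⟨x, hx1, hx2⟩ := f.exists_lt_apply_of_lt_opNorm (r := 1 - δ) (by linarith)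
  obtain ⟨c, hc1, hc2⟩ := exists_rot (f x)
  refine ⟨c • x, by rw [norm_smul, hc1, one_mul]; exact hx1.le, ?_⟩
  rw [map_smul, smul_eq_mul, hc2, RCLike.ofReal_re]
  exact hx2.le

theorem finite_of_WMP [CompleteSpace E] (hW : WMP 𝕜 E (lp (fun _ : ℕ => 𝕜) ⊤)) :
    FiniteDimensional 𝕜 E := by
  classical
  by_contra hE
  obtain ⟨g, hg, hg0⟩ := exists_null (reflexive_of_WMP hW) hE
  have hgn : ∀ n, ‖(-g n)‖ = 1 := fun n => by rw [norm_neg, hg]
  have hgn0 : ∀ x, Tendsto (fun n => (-g n) x) atTop (𝓝 0) := fun x => by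
    simpa using (hg0 x).neg
  set δ : ℝ := 1 / 20 with hδ
  have hδ0 : 0 < δ := by norm_num [hδ]
  -- the step
  have step : ∀ (k : ℕ) (S : E →L[𝕜] 𝕜) (F : Finset E), ∃ (n : ℕ) (x : E), k ≤ n ∧ ‖x‖ ≤ 1 ∧
      1 - δ ≤ RCLike.re (g n x) ∧ ‖S + g n‖ ≤ max ‖S‖ 1 + δ * (1 / 2) ^ (k + 1) ∧
      ‖S - g n‖ ≤ max ‖S‖ 1 + δ * (1 / 2) ^ (k + 1) ∧
      ∀ w ∈ F, ‖g n w‖ ≤ δ * (1 / 2) ^ (k + 1) := by
    intro k S F
    have hp : 0 < δ * (1 / 2) ^ (k + 1) := by positivity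
    have h1 := lemU hW g hg hg0 S _ hp
    have h2 := lemU hW (fun n => - g n) hgn hgn0 S _ hp
    have h3 : ∀ᶠ n in atTop, ∀ w ∈ F, ‖g n w‖ ≤ δ * (1 / 2) ^ (k + 1) := by
      rw [Filter.eventually_all_finset]
      intro w _
      have h4 := (hg0 w).norm
      rw [norm_zero] at h4
      filter_upwards [h4.eventually_lt_const hp] with n hn
      exact hn.le
    obtain ⟨n, ⟨⟨h4, h5⟩, h6⟩, h7⟩ := (((h1.and h2).and h3).and (eventually_ge_atTop k)).exists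
    obtain ⟨x, hx1, hx2⟩ := exists_norming (g n) (hg n) δ hδ0
    exact ⟨n, x, h7, hx1, hx2, h4.le, by rw [sub_eq_add_neg]; exact h5.le, h6⟩
  choose N X hkN hX1 hX2 hN1 hN2 hN3 using step
  let St : ℕ → (E →L[𝕜] 𝕜) × Finset E := fun k => Nat.rec (0, ∅)
    (fun k p => (p.1 + g (N k p.1 p.2), insert (X k p.1 p.2) p.2)) k
  set S : ℕ → (E →L[𝕜] 𝕜) := fun k => (St k).1 with hS
  set Fi : ℕ → Finset E := fun k => (St k).2 with hFi
  set h : ℕ → (E →L[𝕜] 𝕜) := fun k => g (N k (St k).1 (St k).2) with hh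
  set x : ℕ → E := fun k => X k (St k).1 (St k).2 with hx
  set ν : ℕ → ℕ := fun k => N k (St k).1 (St k).2 with hν
  have hS0 : S 0 = 0 := rfl
  have hSs : ∀ k, S (k + 1) = S k + h k := fun k => rfl
  have hFs : ∀ k, Fi (k + 1) = insert (x k) (Fi k) := fun k => rfl
  have hhν : ∀ k, h k = g (ν k) := fun k => rfl
  have hνk : ∀ k, k ≤ ν k := fun k => hkN _ _ _
  have hx1 : ∀ k, ‖x k‖ ≤ 1 := fun k => hX1 _ _ _
  have hx2 : ∀ k, 1 - δ ≤ RCLike.re (h k (x k)) := fun k => hX2 _ _ _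
  have hn1 : ∀ k, ‖S k + h k‖ ≤ max ‖S k‖ 1 + δ * (1 / 2) ^ (k + 1) := fun k => hN1 _ _ _
  have hn2 : ∀ k, ‖S k - h k‖ ≤ max ‖S k‖ 1 + δ * (1 / 2) ^ (k + 1) := fun k => hN2 _ _ _
  have hn3 : ∀ k, ∀ w ∈ Fi k, ‖h k w‖ ≤ δ * (1 / 2) ^ (k + 1) := fun k => hN3 _ _ _
  clear_value S Fi h x ν
  have hSn : ∀ k, ‖S k‖ ≤ 1 + δ * (1 - (1 / 2) ^ k) := by
    intro k
    induction k with
    | zero => rw [hS0]; simp
    | succ k ih =>
      rw [hSs]
      refine (hn1 k).trans ?_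
      have h1 : (1 : ℝ) ≤ 1 + δ * (1 - (1 / 2) ^ k) := by
        have : ((1 : ℝ) / 2) ^ k ≤ 1 := pow_le_one₀ (by norm_num) (by norm_num)
        nlinarith
      have h2 : max ‖S k‖ 1 ≤ 1 + δ * (1 - (1 / 2) ^ k) := max_le ih h1
      have h3 : ((1 : ℝ) / 2) ^ k = 2 * (1 / 2) ^ (k + 1) := by ring
      rw [h3] at h2
      linarith
  have hSn1 : ∀ k, ‖S k‖ ≤ 1 + δ := fun k => (hSn k).trans (by
    have : (0 : ℝ) ≤ (1 / 2) ^ k := by positivity
    nlinarith)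
  have hn2' : ∀ k, ‖S k - h k‖ ≤ 1 + δ := by
    intro k
    refine (hn2 k).trans ?_
    have h1 : (1 : ℝ) ≤ 1 + δ * (1 - (1 / 2) ^ k) := by
      have : ((1 : ℝ) / 2) ^ k ≤ 1 := pow_le_one₀ (by norm_num) (by norm_num)
      nlinarith
    have h2 : max ‖S k‖ 1 ≤ 1 + δ * (1 - (1 / 2) ^ k) := max_le (hSn k) h1
    have h3 : ((1 : ℝ) / 2) ^ k = 2 * (1 / 2) ^ (k + 1) := by ring
    have h4 : (0 : ℝ) ≤ (1 / 2) ^ (k + 1) := by positivity
    rw [h3] at h2
    nlinarith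
  have hxF : ∀ k m, k < m → x k ∈ Fi m := by
    intro k m hkm
    induction m with
    | zero => omega
    | succ m ih =>
      rw [hFs]
      rcases Nat.lt_succ_iff_lt_or_eq.1 hkm with h1 | h1
      · exact Finset.mem_insert_of_mem (ih h1)
      · rw [h1]; exact Finset.mem_insert_self _ _
  -- values of later sums
  have hlate : ∀ k m, k + 1 ≤ m → ‖S m (x k) - S (k + 1) (x k)‖ ≤
      δ * ((1 / 2) ^ (k + 1) - (1 / 2) ^ m) := by
    intro k m hkm
    induction m, hkm using Nat.le_induction with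
    | base => simp
    | succ m hm ih =>
      have h1 : S (m + 1) (x k) - S (k + 1) (x k) =
          (S m (x k) - S (k + 1) (x k)) + h m (x k) := by
        rw [hSs, add_apply]; ring
      rw [h1]
      refine (norm_add_le _ _).trans ?_
      have h2 := hn3 m (x k) (hxF k m (by omega))
      have h3 : ((1 : ℝ) / 2) ^ m = 2 * (1 / 2) ^ (m + 1) := by ring
      rw [h3] at ih
      linarith
  obtain ⟨G, hG1, hG2⟩ := exists_ultralimit (hyperfilter ℕ) S (1 + δ) hSn1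
  have hU : ((hyperfilter ℕ : Ultrafilter ℕ) : Filter ℕ) ≤ atTop := Nat.hyperfilter_le_atTop
  have hGk : ∀ k, 1 - 4 * δ ≤ RCLike.re (G (x k)) := by
    intro k
    have h1 : RCLike.re (h k (x k)) - RCLike.re (S k (x k)) ≤ 1 + δ := by
      rw [← map_sub]
      have h2 : h k (x k) - S k (x k) = -((S k - h k) (x k)) := by rw [sub_apply]; ring
      rw [h2]
      refine (RCLike.re_le_norm _).trans ?_
      rw [norm_neg]
      have h3 := (S k - h k).le_of_opNorm_le (hn2' k) (x k)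
      have h4 := hx1 k
      nlinarith
    have h2 : RCLike.re (S (k + 1) (x k)) = RCLike.re (S k (x k)) + RCLike.re (h k (x k)) := by
      rw [hSs, add_apply, map_add]
    have h3 := hx2 k
    have h4 : ∀ m, k + 1 ≤ m → 1 - 4 * δ ≤ RCLike.re (S m (x k)) := by
      intro m hm
      have h5 := hlate k m hm
      have h6 : RCLike.re (S (k + 1) (x k)) - RCLike.re (S m (x k)) ≤
          ‖S m (x k) - S (k + 1) (x k)‖ := by
        rw [← map_sub, ← norm_neg, neg_sub]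
        exact RCLike.re_le_norm _
      have h7 : ((1 : ℝ) / 2) ^ (k + 1) ≤ 1 := pow_le_one₀ (by norm_num) (by norm_num)
      have h8 : (0 : ℝ) ≤ (1 / 2) ^ m := by positivity
      have h9 : δ * ((1 / 2) ^ (k + 1) - (1 / 2) ^ m) ≤ δ := by nlinarith
      have h10 := h6.trans (h5.trans h9)
      generalize RCLike.re ((S m) (x k)) = r1 at *
      generalize RCLike.re ((S (k + 1)) (x k)) = r2 at *
      generalize RCLike.re ((S k) (x k)) = r3 at *
      generalize RCLike.re ((h k) (x k)) = r4 at *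
      linarith only [h1, h2, h3, h10]
    have h5 : Tendsto (fun m => RCLike.re (S m (x k))) (hyperfilter ℕ) (𝓝 (RCLike.re (G (x k)))) :=
      (RCLike.continuous_re.tendsto _).comp (hG2 (x k))
    exact ge_of_tendsto h5 (hU (by
      filter_upwards [eventually_ge_atTop (k + 1)] with m hm
      exact h4 m hm))
  have hfin := lemU hW g hg hg0 G δ hδ0
  obtain ⟨M, hM⟩ := eventually_atTop.1 hfin
  have h1 := hM (ν M) (hνk M)
  rw [← hhν] at h1
  have h2 : max ‖G‖ 1 ≤ 1 + δ := max_le hG1 (by linarith)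
  have h3 : 2 - 5 * δ ≤ ‖G + h M‖ := by
    have h4 : RCLike.re ((G + h M) (x M)) ≤ ‖G + h M‖ := by
      refine (RCLike.re_le_norm _).trans ?_
      have h5 := (G + h M).le_opNorm (x M)
      have h6 := mul_le_mul_of_nonneg_left (hx1 M) (norm_nonneg (G + h M))
      linarith
    rw [add_apply, map_add] at h4
    have h5 := hGk M
    have h6 := hx2 M
    linarith
  have h4 : (2 : ℝ) - 5 * δ < 1 + δ + δ := by linarith
  norm_num [hδ] at h4

end

end Pool.Agent.N242.WM
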