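import Mathlib

set_option autoImplicit false

open Filter Topology

namespace Pool.Agent.N242.WM

/-- `T` attains its norm. -/
def AttainsNorm {𝕜 E F : Type*} [RCLike 𝕜] [NormedAddCommGroup E] [NormedSpace 𝕜 E]
    [NormedAddCommGroup F] [NormedSpace 𝕜 F] (T : E →L[𝕜] F) : Prop :=
  ∃ x : E, ‖x‖ = 1 ∧ ‖T x‖ = ‖T‖

/-- the weak maximizing property of the pair `(E, F)` -/
def WMP (𝕜 E F : Type*) [RCLike 𝕜] [NormedAddCommGroup E] [NormedSpace 𝕜 E]
    [NormedAddCommGroup F] [NormedSpace 𝕜 F] : Prop :=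
  ∀ T : E →L[𝕜] F,
    (∃ x : ℕ → E, (∀ n, ‖x n‖ = 1) ∧ Tendsto (fun n => ‖T (x n)‖) atTop (𝓝 ‖T‖) ∧
      ¬ ∀ g : E →L[𝕜] 𝕜, Tendsto (fun n => g (x n)) atTop (𝓝 0)) →
    AttainsNorm T

section G

variable {𝕜 E : Type*} [RCLike 𝕜] [NormedAddCommGroup E] [NormedSpace 𝕜 E]

/-- the operator into `ℓ_∞` given by a sequence of contractive functionals -/
noncomputable def opInf (F : ℕ → (E →L[𝕜] 𝕜)) (hF : ∀ n, ‖F n‖ ≤ 1) :
    E →L[𝕜] lp (fun _ : ℕ => 𝕜) ⊤ :=
  LinearMap.mkContinuous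
    { toFun := fun x => ⟨fun n => F n x, memℓp_infty ⟨‖x‖, by
        rintro _ ⟨n, rfl⟩
        simpa using (F n).le_of_opNorm_le (hF n) x⟩⟩
      map_add' := fun x y => by ext n; exact map_add (F n) x y
      map_smul' := fun c x => by ext n; exact map_smul (F n) c x } 1 (fun x => by
        rw [one_mul]
        refine lp.norm_le_of_forall_le (norm_nonneg x) fun n => ?_
        simpa using (F n).le_of_opNorm_le (hF n) x)

theorem opInf_apply (F : ℕ → (E →L[𝕜] 𝕜)) (hF : ∀ n, ‖F n‖ ≤ 1) (x : E) (n : ℕ) :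
    (opInf F hF x : ℕ → 𝕜) n = F n x := rfl

theorem opInf_le (F : ℕ → (E →L[𝕜] 𝕜)) (hF : ∀ n, ‖F n‖ ≤ 1) : ‖opInf F hF‖ ≤ 1 :=
  LinearMap.mkContinuous_norm_le _ zero_le_one _

theorem exists_unit (f : E →L[𝕜] 𝕜) (hE : ∃ x : E, ‖x‖ = 1) (b : ℝ) (hb : b < 1) :
    ∃ x : E, ‖x‖ = 1 ∧ b * ‖f‖ ≤ ‖f x‖ := by
  by_cases hf : ‖f‖ = 0
  · obtain ⟨x, hx⟩ := hE
    exact ⟨x, hx, by rw [hf, mul_zero]; exact norm_nonneg _⟩
  · have hpos : 0 < ‖f‖ := lt_of_le_of_ne (norm_nonneg _) (Ne.symm hf)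
    have h1 : max b 0 * ‖f‖ < ‖f‖ := by
      have : max b 0 < 1 := max_lt hb one_pos
      nlinarith
    obtain ⟨x, hx1, hx2⟩ := f.exists_lt_apply_of_lt_opNorm h1
    have hx0 : 0 < ‖x‖ := by
      rw [norm_pos_iff]
      rintro rfl
      have h2 : 0 ≤ max b 0 * ‖f‖ := by positivity
      simp at hx2
      linarith
    refine ⟨(‖x‖⁻¹ : 𝕜) • x, norm_smul_inv_norm (norm_pos_iff.1 hx0), ?_⟩
    rw [map_smul, norm_smul, norm_inv, RCLike.norm_coe_norm]
    have h2 : b * ‖f‖ ≤ max b 0 * ‖f‖ := mul_le_mul_of_nonneg_right (le_max_left _ _) hpos.le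
    have h3 : ‖f x‖ ≤ ‖x‖⁻¹ * ‖f x‖ := by
      have : 1 ≤ ‖x‖⁻¹ := (one_le_inv₀ hx0).2 hx1.le
      have := mul_le_mul_of_nonneg_right this (norm_nonneg (f x))
      linarith
    linarith

/-- If `(E, ℓ_∞)` has the WMP, and `f n` is a sequence of functionals whose norms converge to `c > ρ`
and with `‖f n - h‖ ≤ ρ`, then the norms are attained asymptotically at one point. -/
theorem keyG (hW : WMP 𝕜 E (lp (fun _ : ℕ => 𝕜) ⊤)) (f : ℕ → (E →L[𝕜] 𝕜)) (h : E →L[𝕜] 𝕜)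
    (c ρ : ℝ) (hf : Tendsto (fun n => ‖f n‖) atTop (𝓝 c)) (hρ0 : 0 ≤ ρ) (hρ : ρ < c)
    (hh : ∀ n, ‖f n - h‖ ≤ ρ) :
    ∃ x : E, ‖x‖ = 1 ∧ ∀ δ > 0, ∃ᶠ n in atTop, c - δ < ‖f n x‖ := by
  have hc : 0 < c := lt_of_le_of_lt hρ0 hρ
  set b : ℕ → ℝ := fun n => 1 - 1 / ((n : ℝ) + 2) with hb
  have hb1 : ∀ n, b n < 1 := fun n => by
    have : 0 < 1 / ((n : ℝ) + 2) := by positivity
    simp only [hb]; linarith
  have hb0 : ∀ n, 0 < b n := fun n => by
    have : 1 / ((n : ℝ) + 2) < 1 := by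
      rw [div_lt_one (by positivity)]
      have := Nat.cast_nonneg (α := ℝ) n
      linarith
    simp only [hb]; linarith
  have hbm : Monotone b := by
    intro m n hmn
    simp only [hb]
    have : (m : ℝ) ≤ n := by exact_mod_cast hmn
    have h1 : 1 / ((n : ℝ) + 2) ≤ 1 / ((m : ℝ) + 2) :=
      one_div_le_one_div_of_le (by positivity) (by linarith)
    linarith
  have hbt : Tendsto b atTop (𝓝 1) := by
    have h1 : Tendsto (fun n : ℕ => 1 / ((n : ℝ) + 2)) atTop (𝓝 0) := by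
      have h2 := tendsto_one_div_add_atTop_nhds_zero_nat (𝕜 := ℝ)
      have h3 := (tendsto_add_atTop_iff_nat 1).2 h2
      refine h3.congr fun n => ?_
      push_cast
      ring_nf
    simpa [hb] using (tendsto_const_nhds (x := (1 : ℝ))).sub h1
  set F : ℕ → (E →L[𝕜] 𝕜) := fun n => ((b n / ‖f n‖ : ℝ) : 𝕜) • f n with hF
  have hFn : ∀ n x, ‖F n x‖ = b n / ‖f n‖ * ‖f n x‖ := by
    intro n x
    have h1 : F n x = ((b n / ‖f n‖ : ℝ) : 𝕜) * f n x := rfl
    rw [h1, norm_mul, RCLike.norm_ofReal, abs_of_nonneg]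
    have := (hb0 n).le
    positivity
  have hFb : ∀ n, ‖F n‖ ≤ b n := by
    intro n
    refine ContinuousLinearMap.opNorm_le_bound _ (hb0 n).le fun x => ?_
    rw [hFn]
    by_cases h0 : ‖f n‖ = 0
    · rw [h0, div_zero, zero_mul]
      have := (hb0 n).le
      positivity
    · have hpos : 0 < ‖f n‖ := lt_of_le_of_ne (norm_nonneg _) (Ne.symm h0)
      rw [div_mul_eq_mul_div, div_le_iff₀ hpos]
      have h1 := (f n).le_opNorm x
      have h2 := mul_le_mul_of_nonneg_left h1 (hb0 n).le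
      linarith
  have hF1 : ∀ n, ‖F n‖ ≤ 1 := fun n => (hFb n).trans (hb1 n).le
  have hfpos : ∀ᶠ n in atTop, 0 < ‖f n‖ := hf.eventually_const_lt hc
  have hE : ∃ x : E, ‖x‖ = 1 := by
    obtain ⟨n, hn⟩ := hfpos.exists
    have h0 : f n ≠ 0 := norm_pos_iff.1 hn
    obtain ⟨x, hx⟩ : ∃ x, f n x ≠ 0 := by
      by_contra hcon
      push Not at hcon
      exact h0 (ContinuousLinearMap.ext hcon)
    have hx0 : x ≠ 0 := by rintro rfl; simp at hx
    exact ⟨(‖x‖⁻¹ : 𝕜) • x, norm_smul_inv_norm hx0⟩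
  set T := opInf F hF1 with hT
  choose x hx1 hx2 using fun n => exists_unit (f n) hE (b n) (hb1 n)
  have hlow : ∀ᶠ n in atTop, b n * b n ≤ ‖T (x n)‖ := by
    filter_upwards [hfpos] with n hn
    have h1 : ‖F n (x n)‖ ≤ ‖T (x n)‖ := by
      have := lp.norm_apply_le_norm (p := ⊤) (by simp) (T (x n)) n
      simpa [hT, opInf_apply] using this
    refine le_trans ?_ h1
    rw [hFn]
    have h2 := mul_le_mul_of_nonneg_left (hx2 n) (show 0 ≤ b n / ‖f n‖ by
      have := (hb0 n).le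
      positivity)
    refine le_trans (le_of_eq ?_) h2
    field_simp
  have hup : ∀ n, ‖T (x n)‖ ≤ ‖T‖ := fun n => by
    have := T.le_opNorm (x n)
    rwa [hx1, mul_one] at this
  have hTle : ‖T‖ ≤ 1 := opInf_le F hF1
  have hbb : Tendsto (fun n => b n * b n) atTop (𝓝 1) := by
    simpa using hbt.mul hbt
  have hTn : ‖T‖ = 1 := by
    refine le_antisymm hTle (le_of_tendsto hbb ?_)
    filter_upwards [hlow] with n hn
    exact hn.trans (hup n)
  have hTt : Tendsto (fun n => ‖T (x n)‖) atTop (𝓝 ‖T‖) := by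
    rw [hTn]
    refine tendsto_of_tendsto_of_tendsto_of_le_of_le' hbb tendsto_const_nhds hlow ?_
    exact Eventually.of_forall fun n => (hup n).trans hTle
  have hatt : AttainsNorm T := by
    refine hW T ⟨x, hx1, hTt, ?_⟩
    intro hnull
    have h1 := hnull h
    have h2 : Tendsto (fun n => ‖h (x n)‖ + ρ) atTop (𝓝 ρ) := by
      simpa using h1.norm.add_const ρ
    have h3 : Tendsto (fun n => b n * ‖f n‖) atTop (𝓝 c) := by
      simpa using hbt.mul hf
    have h4 : c ≤ ρ := le_of_tendsto_of_tendsto' h3 h2 fun n => by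
      refine (hx2 n).trans ?_
      have h5 : f n (x n) = h (x n) + (f n - h) (x n) := by simp
      rw [h5]
      refine (norm_add_le _ _).trans ?_
      have h6 := (f n - h).le_of_opNorm_le (hh n) (x n)
      rw [hx1, mul_one] at h6
      linarith
    linarith
  obtain ⟨z, hz1, hz2⟩ := hatt
  refine ⟨z, hz1, fun δ hδ => ?_⟩
  by_contra hcon
  rw [not_frequently] at hcon
  -- eventually small
  set δ' := min δ (c / 2) with hδ'
  have hδ'0 : 0 < δ' := lt_min hδ (by linarith)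
  have hδ'c : δ' ≤ c / 2 := min_le_right _ _
  have h1 : Tendsto (fun n => (c - δ') / ‖f n‖) atTop (𝓝 ((c - δ') / c)) :=
    tendsto_const_nhds.div hf hc.ne'
  have h2 : (c - δ') / c < 1 := by
    rw [div_lt_one hc]; linarith
  obtain ⟨q, hq1, hq2⟩ := exists_between h2
  have h3 := h1.eventually_lt_const hq1
  obtain ⟨N, hN⟩ := eventually_atTop.1 ((h3.and hcon).and hfpos)
  have h4 : ‖T z‖ ≤ max q (b N) := by
    have hq0 : 0 ≤ max q (b N) := (hb0 N).le.trans (le_max_right _ _)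
    refine lp.norm_le_of_forall_le hq0 fun n => ?_
    rw [hT, opInf_apply]
    rcases le_total N n with hn | hn
    · obtain ⟨⟨h5, h6⟩, h7⟩ := hN n hn
      push Not at h6
      refine le_trans ?_ (le_max_left _ _)
      rw [hFn]
      have h8 : ‖f n z‖ ≤ c - δ' := by
        have : δ' ≤ δ := min_le_left _ _
        linarith
      have h9 : b n / ‖f n‖ * ‖f n z‖ ≤ 1 / ‖f n‖ * (c - δ') := by
        apply mul_le_mul _ h8 (norm_nonneg _) (by positivity)
        exact div_le_div_of_nonneg_right (hb1 n).le h7.le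
      have h10 : 1 / ‖f n‖ * (c - δ') = (c - δ') / ‖f n‖ := by ring
      linarith
    · refine le_trans ?_ (le_max_right _ _)
      have h5 := (F n).le_of_opNorm_le (hFb n) z
      rw [hz1, mul_one] at h5
      exact h5.trans (hbm hn)
  rw [hz2, hTn] at h4
  have : max q (b N) < 1 := max_lt hq2 (hb1 N)
  linarith

end G

end Pool.Agent.N242.WM
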