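import Mathlib

set_option autoImplicit false

open Filter Topology

namespace Pool.Agent.N242.WM

section James

variable {𝕜 X : Type*} [RCLike 𝕜] [NormedAddCommGroup X] [NormedSpace 𝕜 X]

/-- distance to a finite dimensional space of functionals, dual form -/
theorem james_dist {E : Type*} [NormedAddCommGroup E] [NormedSpace 𝕜 E]
    (Φ : StrongDual 𝕜 E) (θ : ℝ) (hθ : 0 < θ) {ι : Type*} [Finite ι] (L : ι → StrongDual 𝕜 E)
    (hcon : ∀ f : E, ‖f‖ ≤ 1 → (∀ i, L i f = 0) → ‖Φ f‖ ≤ θ) :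
    ∃ Ψ : StrongDual 𝕜 E, ‖Ψ‖ ≤ θ ∧
      ((Φ - Ψ : StrongDual 𝕜 E) : E →ₗ[𝕜] 𝕜) ∈
        Submodule.span 𝕜 (Set.range fun i => ((L i : StrongDual 𝕜 E) : E →ₗ[𝕜] 𝕜)) := by
  classical
  set E0 : Submodule 𝕜 E := ⨅ i, LinearMap.ker ((L i : StrongDual 𝕜 E) : E →ₗ[𝕜] 𝕜) with hE0
  have hE0mem : ∀ f : E, f ∈ E0 ↔ ∀ i, L i f = 0 := by
    intro f
    rw [hE0, Submodule.mem_iInf]
    rfl
  have hbound : ∀ f ∈ E0, ‖Φ f‖ ≤ θ * ‖f‖ := by
    intro f hf
    rcases eq_or_ne f 0 with h0 | h0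
    · simp [h0]
    · have hpos : 0 < ‖f‖ := norm_pos_iff.mpr h0
      have h1 := hcon ((‖f‖⁻¹ : 𝕜) • f) (norm_smul_inv_norm h0).le (by
        intro i
        have := (hE0mem f).1 hf i
        rw [map_smul, this, smul_zero])
      rw [map_smul, norm_smul, norm_inv, RCLike.norm_coe_norm] at h1
      have h2 := mul_le_mul_of_nonneg_left h1 hpos.le
      rw [← mul_assoc, mul_inv_cancel₀ hpos.ne', one_mul] at h2
      linarith
  set φ : StrongDual 𝕜 E0 := Φ.comp E0.subtypeL with hφ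
  have hφn : ‖φ‖ ≤ θ := by
    refine ContinuousLinearMap.opNorm_le_bound _ hθ.le ?_
    intro f
    exact hbound f f.2
  obtain ⟨Ψ, hΨ1, hΨ2⟩ := exists_extension_norm_eq E0 φ
  refine ⟨Ψ, by rw [hΨ2]; exact hφn, ?_⟩
  apply mem_span_of_iInf_ker_le_ker
  intro f hf
  have hfE : f ∈ E0 := hf
  rw [LinearMap.mem_ker]
  have := hΨ1 ⟨f, hfE⟩
  rw [ContinuousLinearMap.coe_coe]
  change Φ f - Ψ f = 0
  have h4 : φ ⟨f, hfE⟩ = Φ f := rfl
  rw [h4] at this
  rw [← this]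
  simp

/-- rotation to the positive reals -/
theorem exists_rot (z : 𝕜) : ∃ c : 𝕜, ‖c‖ = 1 ∧ c * z = (‖z‖ : 𝕜) := by
  by_cases hz : z = 0
  · exact ⟨1, by simp, by simp [hz]⟩
  · refine ⟨(‖z‖ : 𝕜) / z, ?_, by field_simp⟩
    rw [norm_div, RCLike.norm_coe_norm, div_self (norm_ne_zero_iff.2 hz)]

/-- a functional killing a finite set of vectors on which a far element of the bidual is large -/
theorem james_stepA (Φ : StrongDual 𝕜 (StrongDual 𝕜 X)) (θ : ℝ) (hθ : 0 < θ)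
    (hd : ∀ x : X, θ < ‖Φ - NormedSpace.inclusionInDoubleDual 𝕜 X x‖) (s : Finset X) :
    ∃ f : StrongDual 𝕜 X, ‖f‖ ≤ 1 ∧ (∀ x ∈ s, f x = 0) ∧ θ < RCLike.re (Φ f) := by
  classical
  suffices hs : ∃ f : StrongDual 𝕜 X, ‖f‖ ≤ 1 ∧ (∀ x ∈ s, f x = 0) ∧ θ < ‖Φ f‖ by
    obtain ⟨f, h1, h2, h3⟩ := hs
    obtain ⟨c, hc1, hc2⟩ := exists_rot (Φ f)
    refine ⟨c • f, by rw [norm_smul, hc1, one_mul]; exact h1, fun x hx => by
      have : (c • f) x = c * f x := rfl
      rw [this, h2 x hx, mul_zero], ?_⟩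
    rw [map_smul, smul_eq_mul, hc2, RCLike.ofReal_re]
    exact h3
  by_contra hcon
  push Not at hcon
  obtain ⟨Ψ, hΨ1, hspan⟩ := james_dist Φ θ hθ
    (fun x : s => NormedSpace.inclusionInDoubleDual 𝕜 X (x : X)) (by
      intro f hf hfx
      refine hcon f hf fun x hx => ?_
      have := hfx ⟨x, hx⟩
      simpa using this)
  have hle : Submodule.span 𝕜 (Set.range fun x : s =>
      ((NormedSpace.inclusionInDoubleDual 𝕜 X (x : X) : StrongDual 𝕜 (StrongDual 𝕜 X)) :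
        StrongDual 𝕜 X →ₗ[𝕜] 𝕜)) ≤
      LinearMap.range ((ContinuousLinearMap.coeLM 𝕜).comp
        (NormedSpace.inclusionInDoubleDual 𝕜 X).toLinearMap :
          X →ₗ[𝕜] (StrongDual 𝕜 X →ₗ[𝕜] 𝕜)) := by
    rw [Submodule.span_le]
    rintro _ ⟨x, rfl⟩
    exact ⟨(x : X), rfl⟩
  obtain ⟨x', hx'⟩ := hle hspan
  have hx'' : NormedSpace.inclusionInDoubleDual 𝕜 X x' = Φ - Ψ := by
    apply ContinuousLinearMap.ext
    intro f
    have := LinearMap.congr_fun hx' f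
    simpa using this
  have := hd x'
  rw [hx''] at this
  have h5 : Φ - (Φ - Ψ) = Ψ := by abel
  rw [h5] at this
  linarith

/-- Helly's step -/
theorem james_stepB (Φ : StrongDual 𝕜 (StrongDual 𝕜 X)) (hΦ : ‖Φ‖ ≤ 1) (θ : ℝ)
    (F : Finset (StrongDual 𝕜 X)) (hF : ∀ f ∈ F, θ < RCLike.re (Φ f)) :
    ∃ x : X, ‖x‖ ≤ 1 ∧ ∀ f ∈ F, θ ≤ RCLike.re (f x) := by
  classical
  by_contra hcon
  push Not at hcon
  set A : Set (F → ℝ) := (fun x : X => fun f : F => RCLike.re ((f : StrongDual 𝕜 X) x)) ''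
    (Metric.closedBall 0 1) with hA
  set B : Set (F → ℝ) := {t | ∀ f, θ < t f} with hB
  have hBo : IsOpen B := by
    have : B = ⋂ f : F, {t : F → ℝ | θ < t f} := by
      ext t; simp [hB]
    rw [this]
    exact isOpen_iInter_of_finite fun f => isOpen_lt continuous_const (continuous_apply f)
  have hBc : Convex ℝ B := by
    intro a ha b hb p q hp hq hpq f
    have h1 := ha f
    have h2 := hb f
    simp only [Pi.add_apply, Pi.smul_apply, smul_eq_mul]
    rcases eq_or_lt_of_le hp with hp0 | hp0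
    · have : q = 1 := by linarith
      rw [← hp0, this]; linarith
    · have h3 : p * θ < p * a f := mul_lt_mul_of_pos_left h1 hp0
      have h4 : q * θ ≤ q * b f := mul_le_mul_of_nonneg_left h2.le hq
      have h5 : p * θ + q * θ = θ := by rw [← add_mul, hpq, one_mul]
      linarith
  have hAc : Convex ℝ A := by
    rintro _ ⟨x, hx, rfl⟩ _ ⟨y, hy, rfl⟩ p q hp hq hpq
    refine ⟨(p : 𝕜) • x + (q : 𝕜) • y, ?_, ?_⟩
    · simp only [mem_closedBall_zero_iff] at hx hy ⊢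
      refine (norm_add_le _ _).trans ?_
      rw [norm_smul, norm_smul, RCLike.norm_ofReal, RCLike.norm_ofReal, abs_of_nonneg hp,
        abs_of_nonneg hq]
      nlinarith
    · ext f
      simp
  have hdisj : Disjoint B A := by
    rw [Set.disjoint_left]
    rintro t ht ⟨x, hx, rfl⟩
    obtain ⟨f, hfF, hf⟩ := hcon x (by simpa using hx)
    have := ht ⟨f, hfF⟩
    simp only at this
    linarith
  obtain ⟨L, u, hL1, hL2⟩ := geometric_hahn_banach_open hBc hBo hAc hdisj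
  set c : F → ℝ := fun f => - L (Pi.single f 1) with hc
  have hLrep : ∀ t : F → ℝ, L t = - ∑ f, c f * t f := by
    intro t
    have h1 : t = ∑ f, t f • (Pi.single f (1 : ℝ) : F → ℝ) := by
      ext g
      simp [Finset.sum_apply, Pi.single_apply]
    conv_lhs => rw [h1]
    rw [map_sum, ← Finset.sum_neg_distrib]
    refine Finset.sum_congr rfl fun f _ => ?_
    rw [map_smul]
    simp [hc]
    ring
  set g : StrongDual 𝕜 X := ∑ f : F, (c f : 𝕜) • (f : StrongDual 𝕜 X) with hg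
  have hgx : ∀ x : X, ‖x‖ ≤ 1 → RCLike.re (g x) ≤ -u := by
    intro x hx
    have h1 := hL2 _ ⟨x, by simpa using hx, rfl⟩
    rw [hLrep] at h1
    have h2 : RCLike.re (g x) = ∑ f : F, c f * RCLike.re ((f : StrongDual 𝕜 X) x) := by
      rw [hg]
      simp
    rw [h2]
    linarith
  have hu : 0 ≤ -u := by
    have := hgx 0 (by simp)
    simpa using this
  have hgn : ‖g‖ ≤ -u := by
    refine ContinuousLinearMap.opNorm_le_of_unit_norm hu ?_
    intro x hx
    obtain ⟨d, hd1, hd2⟩ := exists_rot (g x)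
    have := hgx (d • x) (by rw [norm_smul, hd1, one_mul]; exact hx.le)
    rw [map_smul, smul_eq_mul, hd2, RCLike.ofReal_re] at this
    exact this
  have hΦg : RCLike.re (Φ g) ≤ -u := by
    calc RCLike.re (Φ g) ≤ ‖Φ g‖ := RCLike.re_le_norm _
      _ ≤ ‖Φ‖ * ‖g‖ := Φ.le_opNorm g
      _ ≤ 1 * (-u) := mul_le_mul hΦ hgn (norm_nonneg _) (by norm_num)
      _ = -u := one_mul _
  have hmem : (fun f : F => RCLike.re (Φ (f : StrongDual 𝕜 X))) ∈ B := fun f => hF f f.2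
  have h1 := hL1 _ hmem
  rw [hLrep] at h1
  have h2 : RCLike.re (Φ g) = ∑ f : F, c f * RCLike.re (Φ (f : StrongDual 𝕜 X)) := by
    rw [hg, map_sum, map_sum]
    refine Finset.sum_congr rfl fun f _ => ?_
    rw [map_smul, smul_eq_mul, RCLike.re_ofReal_mul]
  rw [h2] at hΦg
  linarith

end James

/-- Riesz lemma for the range of a non surjective isometry -/
theorem far_of_li {𝕜 X E : Type*} [RCLike 𝕜] [NormedAddCommGroup X] [NormedSpace 𝕜 X]
    [CompleteSpace X] [NormedAddCommGroup E] [NormedSpace 𝕜 E] (J : X → E)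
    (hadd : ∀ x y, J (x + y) = J x + J y)
    (hsmul : ∀ (c : 𝕜) x, J (c • x) = c • J x) (hn : ∀ x, ‖J x‖ = ‖x‖)
    (hJ : ¬ Function.Surjective J) :
    ∃ Φ : E, ‖Φ‖ ≤ 1 ∧ ∀ x : X, (3 / 4 : ℝ) < ‖Φ - J x‖ := by
  set J' : X →ₗᵢ[𝕜] E := ⟨⟨⟨J, hadd⟩, hsmul⟩, hn⟩ with hJ'
  set R : Submodule 𝕜 E := LinearMap.range J'.toLinearMap with hR
  have hclosed : IsClosed (R : Set E) := by
    have h1 : (R : Set E) = Set.range J' := by
      ext y
      constructor
      · rintro ⟨x, hx⟩; exact ⟨x, hx⟩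
      · rintro ⟨x, hx⟩; exact ⟨x, hx⟩
    rw [h1]
    exact J'.isometry.isClosedEmbedding.isClosed_range
  have hne : ∃ y, y ∉ R := by
    by_contra h
    push Not at h
    exact hJ fun y => h y
  obtain ⟨Φ, -, hΦ1, hΦ2⟩ := riesz_lemma_of_lt_one hclosed hne (show (4 / 5 : ℝ) < 1 by norm_num)
  refine ⟨Φ, hΦ1.le, fun x => ?_⟩
  have := hΦ2 (J x) ⟨x, rfl⟩
  linarith

/-- an element of the bidual far from the canonical image -/
theorem james_far {𝕜 X : Type*} [RCLike 𝕜] [NormedAddCommGroup X] [NormedSpace 𝕜 X]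
    [CompleteSpace X] (hX : ¬ Function.Surjective (NormedSpace.inclusionInDoubleDual 𝕜 X)) :
    ∃ Φ : StrongDual 𝕜 (StrongDual 𝕜 X), ‖Φ‖ ≤ 1 ∧
      ∀ x : X, (3 / 4 : ℝ) < ‖Φ - NormedSpace.inclusionInDoubleDual 𝕜 X x‖ := by
  have h0 : ∀ x : X, ‖NormedSpace.inclusionInDoubleDual 𝕜 X x‖ = ‖x‖ := by
    intro x
    exact (NormedSpace.inclusionInDoubleDualLi 𝕜 (E := X)).norm_map x
  refine far_of_li (𝕜 := 𝕜) (X := X) (E := StrongDual 𝕜 (StrongDual 𝕜 X))
    (fun x => NormedSpace.inclusionInDoubleDual 𝕜 X x) ?_ ?_ h0 hX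
  · intro x y
    exact map_add _ _ _
  · intro c x
    exact map_smul _ _ _

/-- the recursion -/
theorem james_rec {X F : Type*} (P : F → Prop) (A : Finset X → F)
    (B : ∀ G : Finset F, (∀ f ∈ G, P f) → X) (hA : ∀ s, P (A s)) :
    ∃ (x : ℕ → X) (f : ℕ → F), ∀ n, ∃ (s : Finset X) (G : Finset F) (hG : ∀ f ∈ G, P f),
      f n = A s ∧ (∀ j, j < n → x j ∈ s) ∧ x n = B G hG ∧ (∀ j, j ≤ n → f j ∈ G) := by
  classical
  let St := {p : Finset X × Finset F // ∀ f ∈ p.2, P f}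
  have hins : ∀ p : St, ∀ f ∈ insert (A p.1.1) p.1.2, P f := by
    intro p f hf
    rcases Finset.mem_insert.1 hf with h | h
    · rw [h]; exact hA _
    · exact p.2 f h
  let fOf : St → F := fun p => A p.1.1
  let xOf : St → X := fun p => B (insert (A p.1.1) p.1.2) (hins p)
  let nxt : St → St := fun p => ⟨(insert (xOf p) p.1.1, insert (fOf p) p.1.2), hins p⟩
  let S : ℕ → St := fun n => Nat.rec ⟨(∅, ∅), by simp⟩ (fun _ p => nxt p) n
  have hS : ∀ n, S (n + 1) = nxt (S n) := fun n => rfl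
  have hmx : ∀ n k, n < k → xOf (S n) ∈ (S k).1.1 := by
    intro n k hk
    induction k with
    | zero => omega
    | succ k ih =>
      rw [hS]
      show _ ∈ insert (xOf (S k)) (S k).1.1
      rcases Nat.lt_succ_iff_lt_or_eq.1 hk with h | h
      · exact Finset.mem_insert_of_mem (ih h)
      · rw [h]; exact Finset.mem_insert_self _ _
  have hmf : ∀ n k, n < k → fOf (S n) ∈ (S k).1.2 := by
    intro n k hk
    induction k with
    | zero => omega
    | succ k ih =>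
      rw [hS]
      show _ ∈ insert (fOf (S k)) (S k).1.2
      rcases Nat.lt_succ_iff_lt_or_eq.1 hk with h | h
      · exact Finset.mem_insert_of_mem (ih h)
      · rw [h]; exact Finset.mem_insert_self _ _
  refine ⟨fun n => xOf (S n), fun n => fOf (S n), fun n => ⟨(S n).1.1,
    insert (A (S n).1.1) (S n).1.2, hins (S n), rfl, fun j hj => hmx j n hj, rfl, ?_⟩⟩
  intro j hj
  rcases Nat.lt_or_eq_of_le hj with h | h
  · exact Finset.mem_insert_of_mem (hmf j n h)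
  · rw [h]; exact Finset.mem_insert_self _ _

/-- James' biorthogonal-type sequences in a nonreflexive Banach space. -/
theorem james_seq {𝕜 X : Type*} [RCLike 𝕜] [NormedAddCommGroup X] [NormedSpace 𝕜 X]
    [CompleteSpace X] (hX : ¬ Function.Surjective (NormedSpace.inclusionInDoubleDual 𝕜 X)) :
    ∃ (x : ℕ → X) (f : ℕ → (X →L[𝕜] 𝕜)),
      (∀ n, ‖x n‖ ≤ 1) ∧ (∀ n, ‖f n‖ ≤ 1) ∧
      (∀ k n, n < k → f k (x n) = 0) ∧ (∀ k n, k ≤ n → (3 / 4 : ℝ) ≤ RCLike.re (f k (x n))) := by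
  obtain ⟨Φ, hΦn, hd⟩ := james_far hX
  choose cA hA1 hA2 hA3 using james_stepA Φ (3 / 4) (by norm_num) hd
  choose cB hB1 hB2 using james_stepB Φ hΦn (3 / 4)
  obtain ⟨x, f, hxf⟩ := james_rec (fun f : StrongDual 𝕜 X => (3 / 4 : ℝ) < RCLike.re (Φ f))
    cA cB hA3
  refine ⟨x, f, ?_, ?_, ?_, ?_⟩
  · intro n
    obtain ⟨s, G, hG, h1, h2, h3, h4⟩ := hxf n
    rw [h3]; exact hB1 _ _
  · intro n
    obtain ⟨s, G, hG, h1, h2, h3, h4⟩ := hxf n
    rw [h1]; exact hA1 _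
  · intro k n hnk
    obtain ⟨s, G, hG, h1, h2, h3, h4⟩ := hxf k
    rw [h1]
    exact hA2 _ _ (h2 n hnk)
  · intro k n hkn
    obtain ⟨s, G, hG, h1, h2, h3, h4⟩ := hxf n
    rw [h3]
    exact hB2 _ _ _ (h4 k hkn)

end Pool.Agent.N242.WM
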