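import Mathlib

set_option autoImplicit false

open Filter Topology Finset

namespace Pool.Agent.N242.WM

/-- the real number lemma -/
theorem real_lemma (κ η α : ℝ) (hκ0 : 0 < κ) (hκ1 : κ < 1) (hη : 0 < η) (t : ℕ → ℝ)
    (ht : ∀ i, |t i| ≤ 3) (hs : HasSum (fun i => (1 - κ) * κ ^ i * t i) α)
    (hb : ∀ n, ∑ i ∈ range n, (1 - κ) * κ ^ i * t i + κ ^ n * t n ≤
      α + η * κ ^ (n + 1) * (1 / 2) ^ (n + 1)) (n : ℕ) (hpos : 0 ≤ α - η - 3 * κ) :
    α - η - 3 * κ ≤ t n := by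
  have h1 : ∀ n, ∑ i ∈ range n, (1 - κ) * κ ^ i * t i ≤
      (1 - κ ^ n) * α + η * (1 - (1 / 2) ^ n) * κ ^ n := by
    intro n
    induction n with
    | zero => simp
    | succ n ih =>
      rw [Finset.sum_range_succ]
      have h2 := hb n
      have h3 : ∑ i ∈ range n, (1 - κ) * κ ^ i * t i + (1 - κ) * κ ^ n * t n =
          κ * (∑ i ∈ range n, (1 - κ) * κ ^ i * t i) + (1 - κ) *
            (∑ i ∈ range n, (1 - κ) * κ ^ i * t i + κ ^ n * t n) := by ring
      rw [h3]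
      have h4 := mul_le_mul_of_nonneg_left ih hκ0.le
      have h5 := mul_le_mul_of_nonneg_left h2 (sub_nonneg.2 hκ1.le)
      have h6 : (0 : ℝ) ≤ η * κ ^ (n + 1) * (1 / 2) ^ (n + 1) * κ := by positivity
      linear_combination h4 + h5 + h6
  have h2 : HasSum (fun i => (1 - κ) * κ ^ (i + (n + 1)) * t (i + (n + 1)))
      (α - ∑ i ∈ range (n + 1), (1 - κ) * κ ^ i * t i) := by
    have := (hasSum_nat_add_iff' (f := fun i => (1 - κ) * κ ^ i * t i) (n + 1)).2 hs
    exact this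
  have h3 : HasSum (fun i : ℕ => (1 - κ) * κ ^ (i + (n + 1)) * 3) (3 * κ ^ (n + 1)) := by
    have := (hasSum_geometric_of_lt_one hκ0.le hκ1).mul_left ((1 - κ) * κ ^ (n + 1) * 3)
    have h4 : (1 - κ) * κ ^ (n + 1) * 3 * (1 - κ)⁻¹ = 3 * κ ^ (n + 1) := by
      have : (1 - κ) ≠ 0 := by linarith
      field_simp
    rw [h4] at this
    have e : (fun i : ℕ => (1 - κ) * κ ^ (i + (n + 1)) * 3) =
        fun i => (1 - κ) * κ ^ (n + 1) * 3 * κ ^ i := by
      funext i
      rw [pow_add κ i]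
      ring
    rw [e]
    exact this
  have h4 : α - ∑ i ∈ range (n + 1), (1 - κ) * κ ^ i * t i ≤ 3 * κ ^ (n + 1) := by
    refine hasSum_le (fun i => ?_) h2 h3
    apply mul_le_mul_of_nonneg_left (le_of_abs_le (ht _))
    have : 0 ≤ 1 - κ := by linarith
    positivity
  rw [Finset.sum_range_succ] at h4
  have h5 := h1 n
  have h6 : (0 : ℝ) ≤ (1 / 2) ^ n := by positivity
  have h7 : 0 < κ ^ n := by positivity
  have h8 : κ ^ n * (α - η - 3 * κ) ≤ κ ^ n * ((1 - κ) * t n) := by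
    have : κ ^ (n + 1) = κ ^ n * κ := by ring
    rw [this] at h4
    have h9 : 0 ≤ η * (1 / 2) ^ n * κ ^ n := by positivity
    nlinarith
  have h9 : α - η - 3 * κ ≤ (1 - κ) * t n := le_of_mul_le_mul_left h8 h7
  have h10 : 0 ≤ t n := by
    by_contra hcon
    push Not at hcon
    have : (1 - κ) * t n < 0 := mul_neg_of_pos_of_neg (by linarith) hcon
    linarith
  nlinarith

end Pool.Agent.N242.WM
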