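import Mathlib

set_option autoImplicit false

open Filter Topology Finset

namespace Pool.Agent.N242.WM

section Sel

variable {Y : Type*} [NormedAddCommGroup Y] [NormedSpace ℝ Y]

/-- convex blocks -/
def Blk (z f : ℕ → Y) : Prop := ∀ k, z k ∈ convexHull ℝ (f '' Set.Ici k)

theorem Blk.refl (f : ℕ → Y) : Blk f f := fun k => subset_convexHull ℝ _ ⟨k, Set.self_mem_Ici, rfl⟩

theorem Blk.hull_le {z f : ℕ → Y} (h : Blk z f) (k : ℕ) :
    convexHull ℝ (z '' Set.Ici k) ⊆ convexHull ℝ (f '' Set.Ici k) := by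
  refine convexHull_min ?_ (convex_convexHull ℝ _)
  rintro _ ⟨j, hj, rfl⟩
  exact convexHull_mono (Set.image_mono (Set.Ici_subset_Ici.2 hj)) (h j)

theorem Blk.trans {w z f : ℕ → Y} (h : Blk w z) (h' : Blk z f) : Blk w f := fun k =>
  h'.hull_le k (h k)

theorem Blk.norm_le {z f : ℕ → Y} (h : Blk z f) (hf : ∀ k, ‖f k‖ ≤ 1) (k : ℕ) : ‖z k‖ ≤ 1 := by
  have h1 : convexHull ℝ (f '' Set.Ici k) ⊆ Metric.closedBall (0 : Y) 1 := by
    refine convexHull_min ?_ (convex_closedBall _ _)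
    rintro _ ⟨j, _, rfl⟩
    simpa using hf j
  simpa using h1 (h k)

theorem sel_step (n : ℕ) (r ε : ℝ) (hε : 0 < ε) (s : Y) (z : ℕ → Y) (hz : ∀ k, ‖z k‖ ≤ 1) :
    ∃ y ∈ convexHull ℝ (z '' Set.Ici n), ∃ z' : ℕ → Y, Blk z' z ∧ ∃ c : ℝ,
      (∀ᶠ k in atTop, ‖s + r • y - z' k‖ ≤ c) ∧
      ∀ y' ∈ convexHull ℝ (z '' Set.Ici n), ∀ z'' : ℕ → Y, Blk z'' z → ∀ c' : ℝ,
        (∀ᶠ k in atTop, ‖s + r • y' - z'' k‖ ≤ c') → c ≤ c' + ε := by
  set M : Set ℝ := {c | ∃ y ∈ convexHull ℝ (z '' Set.Ici n), ∃ z' : ℕ → Y, Blk z' z ∧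
    (∀ᶠ k in atTop, ‖s + r • y - z' k‖ ≤ c)} with hM
  have hne : M.Nonempty := by
    refine ⟨‖s + r • z n‖ + 1, z n, subset_convexHull ℝ _ ⟨n, Set.self_mem_Ici, rfl⟩, z,
      Blk.refl z, Eventually.of_forall fun k => ?_⟩
    exact (norm_sub_le _ _).trans (by linarith [hz k])
  have hbd : BddBelow M := by
    refine ⟨0, ?_⟩
    rintro c ⟨y, _, z', _, hc⟩
    obtain ⟨k, hk⟩ := hc.exists
    exact (norm_nonneg _).trans hk
  obtain ⟨c, ⟨y, hy, z', hz', hc⟩, hlt⟩ := Real.lt_sInf_add_pos hne hε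
  refine ⟨y, hy, z', hz', c, hc, fun y' hy' z'' hz'' c' hc' => ?_⟩
  have : sInf M ≤ c' := csInf_le hbd ⟨y', hy', z'', hz'', hc'⟩
  linarith

theorem selection [CompleteSpace Y] (f : ℕ → Y) (hf : ∀ k, ‖f k‖ ≤ 1) (v : Y) (κ η : ℝ)
    (hκ0 : 0 < κ) (hκ1 : κ < 1) (hη : 0 < η) :
    ∃ (y : ℕ → Y) (u : Y) (α : ℝ) (ψ : ℕ → ℕ), StrictMono ψ ∧ Blk y f ∧
      HasSum (fun i => ((1 - κ) * κ ^ i) • y i) (u - v) ∧
      Tendsto (fun k => ‖u - y (ψ k)‖) atTop (𝓝 α) ∧
      ∀ n, ∀ᶠ k in atTop, ‖v + ∑ i ∈ range n, ((1 - κ) * κ ^ i) • y i + κ ^ n • y n - y k‖ ≤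
        α + η * κ ^ (n + 1) * (1 / 2) ^ (n + 1) := by
  set ε : ℕ → ℝ := fun n => η * κ ^ (n + 1) * (1 / 2) ^ (n + 1) with hε
  have hεpos : ∀ n, 0 < ε n := fun n => by simp only [hε]; positivity
  choose Yc hYc Zc hZc Cc hC1 hC2 using fun (n : ℕ) (s : Y) (z : {z : ℕ → Y // ∀ k, ‖z k‖ ≤ 1}) =>
    sel_step n (κ ^ n) (ε n) (hεpos n) s z.1 z.2
  let S : ℕ → Y × {z : ℕ → Y // ∀ k, ‖z k‖ ≤ 1} := fun n => Nat.rec (v, ⟨f, hf⟩)
    (fun n p => (p.1 + ((1 - κ) * κ ^ n) • Yc n p.1 p.2,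
      ⟨Zc n p.1 p.2, (hZc n p.1 p.2).norm_le p.2.2⟩)) n
  set y : ℕ → Y := fun n => Yc n (S n).1 (S n).2 with hy
  set s : ℕ → Y := fun n => (S n).1 with hs
  set z : ℕ → ℕ → Y := fun n => (S n).2.1 with hz
  set c : ℕ → ℝ := fun n => Cc n (S n).1 (S n).2 with hc
  have hs0 : s 0 = v := rfl
  have hss : ∀ n, s (n + 1) = s n + ((1 - κ) * κ ^ n) • y n := fun n => rfl
  have hz0 : z 0 = f := rfl
  have hyz : ∀ n, y n ∈ convexHull ℝ (z n '' Set.Ici n) := fun n => hYc n (S n).1 (S n).2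
  have hzz : ∀ n, Blk (z (n + 1)) (z n) := fun n => hZc n (S n).1 (S n).2
  have hc1 : ∀ n, ∀ᶠ k in atTop, ‖s n + κ ^ n • y n - z (n + 1) k‖ ≤ c n :=
    fun n => hC1 n (S n).1 (S n).2
  have hc2 : ∀ n, ∀ y' ∈ convexHull ℝ (z n '' Set.Ici n), ∀ z'' : ℕ → Y, Blk z'' (z n) →
      ∀ c' : ℝ, (∀ᶠ k in atTop, ‖s n + κ ^ n • y' - z'' k‖ ≤ c') → c n ≤ c' + ε n :=
    fun n => hC2 n (S n).1 (S n).2
  clear_value y s z c
  have hsum : ∀ n, s n = v + ∑ i ∈ range n, ((1 - κ) * κ ^ i) • y i := by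
    intro n
    induction n with
    | zero => simp [hs0]
    | succ n ih => rw [hss, ih, Finset.sum_range_succ, add_assoc]
  have hzmn : ∀ n m, n ≤ m → Blk (z m) (z n) := by
    intro n m hnm
    induction m, hnm using Nat.le_induction with
    | base => exact Blk.refl _
    | succ m _ ih => exact (hzz m).trans ih
  have hyn : ∀ n k, n ≤ k → y k ∈ convexHull ℝ (z n '' Set.Ici k) := fun n k hnk =>
    (hzmn n k hnk).hull_le k (hyz k)
  have hyf : Blk y f := fun k => by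
    have := hyn 0 k (Nat.zero_le _)
    rwa [hz0] at this
  have hy1 : ∀ k, ‖y k‖ ≤ 1 := fun k => hyf.norm_le hf k
  -- the sum
  have hgeo : Summable fun i : ℕ => (1 - κ) * κ ^ i :=
    (summable_geometric_of_lt_one hκ0.le hκ1).mul_left _
  have hsummable : Summable fun i => ((1 - κ) * κ ^ i) • y i := by
    refine Summable.of_norm_bounded hgeo fun i => ?_
    rw [norm_smul, Real.norm_of_nonneg (by
      have : 0 ≤ 1 - κ := by linarith
      positivity)]
    have : 0 ≤ (1 - κ) * κ ^ i := by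
      have : 0 ≤ 1 - κ := by linarith
      positivity
    nlinarith [hy1 i]
  set U := ∑' i, ((1 - κ) * κ ^ i) • y i with hU
  have hUs : HasSum (fun i => ((1 - κ) * κ ^ i) • y i) U := hsummable.hasSum
  set u := v + U with hu
  have hsu : ∀ m, ‖u - (s m + κ ^ m • y m)‖ ≤ 2 * κ ^ m := by
    intro m
    have h1 : HasSum (fun i => ((1 - κ) * κ ^ (i + m)) • y (i + m)) (u - s m) := by
      have := (hasSum_nat_add_iff' (f := fun i => ((1 - κ) * κ ^ i) • y i) m).2 hUs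
      have h2 : u - s m = U - ∑ i ∈ range m, ((1 - κ) * κ ^ i) • y i := by
        rw [hsum, hu]; abel
      rw [h2]
      exact this
    have h2 : HasSum (fun i : ℕ => (1 - κ) * κ ^ (i + m)) (κ ^ m) := by
      have := (hasSum_geometric_of_lt_one hκ0.le hκ1).mul_left ((1 - κ) * κ ^ m)
      have h4 : (1 - κ) * κ ^ m * (1 - κ)⁻¹ = κ ^ m := by
        have : (1 - κ) ≠ 0 := by linarith
        field_simp
      rw [h4] at this
      have e : (fun i : ℕ => (1 - κ) * κ ^ (i + m)) = fun i => (1 - κ) * κ ^ m * κ ^ i := by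
        funext i
        rw [pow_add κ i]
        ring
      rw [e]
      exact this
    have h3 : ‖u - s m‖ ≤ κ ^ m := by
      rw [← h1.tsum_eq, ← h2.tsum_eq]
      refine tsum_of_norm_bounded h2.summable.hasSum fun i => ?_
      have h5 : 0 ≤ (1 - κ) * κ ^ (i + m) := by
        have : 0 ≤ 1 - κ := by linarith
        positivity
      rw [norm_smul, Real.norm_of_nonneg h5]
      nlinarith [hy1 (i + m)]
    have h4 : ‖κ ^ m • y m‖ ≤ κ ^ m := by
      rw [norm_smul, Real.norm_of_nonneg (by positivity)]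
      have : 0 < κ ^ m := by positivity
      nlinarith [hy1 m]
    calc ‖u - (s m + κ ^ m • y m)‖ = ‖(u - s m) - κ ^ m • y m‖ := by congr 1; abel
      _ ≤ ‖u - s m‖ + ‖κ ^ m • y m‖ := norm_sub_le _ _
      _ ≤ 2 * κ ^ m := by linarith
  -- subsequence
  have hbdd : ∀ k, ‖u - y k‖ ∈ Metric.closedBall (0 : ℝ) (‖u‖ + 1) := by
    intro k
    rw [mem_closedBall_zero_iff, norm_norm]
    exact (norm_sub_le _ _).trans (by linarith [hy1 k])
  obtain ⟨α, -, ψ, hψ, hα⟩ := tendsto_subseq_of_bounded Metric.isBounded_closedBall hbdd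
  refine ⟨y, u, α, ψ, hψ, hyf, ?_, hα, ?_⟩
  · have : u - v = U := by rw [hu]; abel
    rw [this]
    exact hUs
  -- c n ≤ α + ε n
  have hcn : ∀ n, c n ≤ α + ε n := by
    intro n
    have hconv : ∀ m, n ≤ m → ∀ w ∈ convexHull ℝ (z n '' Set.Ici n),
        (κ ^ n)⁻¹ • (s m - s n + κ ^ m • w) ∈ convexHull ℝ (z n '' Set.Ici n) := by
      intro m hnm
      induction m, hnm using Nat.le_induction with
      | base =>
        intro w hw
        have hk : κ ^ n ≠ 0 := by positivity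
        rw [sub_self, zero_add, smul_smul, inv_mul_cancel₀ hk, one_smul]
        exact hw
      | succ m hm ih =>
        intro w hw
        have hym : y m ∈ convexHull ℝ (z n '' Set.Ici n) :=
          convexHull_mono (Set.image_mono (Set.Ici_subset_Ici.2 hm)) (hyn n m hm)
        have h1 : (1 - κ) • y m + κ • w ∈ convexHull ℝ (z n '' Set.Ici n) :=
          convex_convexHull ℝ _ hym hw (by linarith) hκ0.le (by ring)
        have h2 := ih _ h1
        convert h2 using 2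
        rw [hss m, smul_add, smul_smul, smul_smul, pow_succ]
        have : κ ^ m * (1 - κ) = (1 - κ) * κ ^ m := by ring
        rw [this]
        abel
    have key : ∀ m, n ≤ m → ∀ δ > 0, c n ≤ α + δ + 2 * κ ^ m + ε n := by
      intro m hm δ hδ
      have hym : y m ∈ convexHull ℝ (z n '' Set.Ici n) :=
          convexHull_mono (Set.image_mono (Set.Ici_subset_Ici.2 hm)) (hyn n m hm)
      refine hc2 n _ (hconv m hm _ hym) (fun k => y (ψ (max k n))) ?_ _ ?_
      · intro k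
        have h1 : max k n ≤ ψ (max k n) := hψ.id_le _
        have h2 := hyn n (ψ (max k n)) ((le_max_right k n).trans h1)
        exact convexHull_mono (Set.image_mono (Set.Ici_subset_Ici.2 ((le_max_left k n).trans h1))) h2
      · have h1 : ∀ᶠ k in atTop, ‖u - y (ψ k)‖ < α + δ := hα.eventually_lt_const (by linarith)
        filter_upwards [h1, eventually_ge_atTop n] with k hk hkn
        rw [max_eq_left hkn]
        have h2 : s n + κ ^ n • (κ ^ n)⁻¹ • (s m - s n + κ ^ m • y m) = s m + κ ^ m • y m := by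
          have hk : κ ^ n ≠ 0 := by positivity
          rw [smul_smul, mul_inv_cancel₀ hk, one_smul]
          abel
        rw [h2]
        calc ‖s m + κ ^ m • y m - y (ψ k)‖ = ‖(u - y (ψ k)) - (u - (s m + κ ^ m • y m))‖ := by
              congr 1; abel
          _ ≤ ‖u - y (ψ k)‖ + ‖u - (s m + κ ^ m • y m)‖ := norm_sub_le _ _
          _ ≤ α + δ + 2 * κ ^ m := by linarith [hsu m]
    refine le_of_forall_pos_le_add fun δ hδ => ?_
    have h1 : Tendsto (fun m : ℕ => 2 * κ ^ m) atTop (𝓝 0) := by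
      simpa using (tendsto_pow_atTop_nhds_zero_of_lt_one hκ0.le hκ1).const_mul 2
    obtain ⟨m, hm1, hm2⟩ := ((h1.eventually_lt_const (show (0 : ℝ) < δ / 2 by linarith)).and
      (eventually_ge_atTop n)).exists
    have := key m hm2 (δ / 2) (by linarith)
    linarith
  intro n
  rw [← hsum]
  obtain ⟨K, hK⟩ := eventually_atTop.1 (hc1 n)
  filter_upwards [eventually_ge_atTop K, eventually_ge_atTop (n + 1)] with k hk1 hk2
  have h1 : convexHull ℝ (z (n + 1) '' Set.Ici K) ⊆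
      Metric.closedBall (s n + κ ^ n • y n) (c n) := by
    refine convexHull_min ?_ (convex_closedBall _ _)
    rintro _ ⟨j, hj, rfl⟩
    rw [Metric.mem_closedBall, dist_comm, dist_eq_norm]
    exact hK j hj
  have h2 := h1 (convexHull_mono (Set.image_mono (Set.Ici_subset_Ici.2 hk1)) (hyn (n + 1) k hk2))
  rw [Metric.mem_closedBall, dist_comm, dist_eq_norm] at h2
  exact h2.trans (hcn n)

end Sel

end Pool.Agent.N242.WM
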