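import Pool.Agent.N242.WM.G
import Pool.Agent.N242.WM.James
import Pool.Agent.N242.WM.Real
import Pool.Agent.N242.WM.Sel

set_option autoImplicit false

open Filter Topology Finset

namespace Pool.Agent.N242.WM

/-- If `(E, ℓ_∞)` has the weak maximizing property then `E` is reflexive. -/
theorem reflexive_of_WMP {𝕜 E : Type*} [RCLike 𝕜] [NormedAddCommGroup E] [NormedSpace 𝕜 E]
    [CompleteSpace E] (hW : WMP 𝕜 E (lp (fun _ : ℕ => 𝕜) ⊤)) :
    Function.Surjective (NormedSpace.inclusionInDoubleDual 𝕜 E) := by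
  by_contra hcon
  obtain ⟨x, f, hx, hf, hf0, hf1⟩ := james_seq hcon
  set κ : ℝ := 1 / 20 with hκ
  set η : ℝ := 1 / 10 with hη
  have hκ0 : 0 < κ := by norm_num [hκ]
  have hκ1 : κ < 1 := by norm_num [hκ]
  obtain ⟨y, u, α, ψ, hψ, hyf, hsum, hα, hb⟩ := selection (Y := E →L[𝕜] 𝕜) f hf (f 0) κ η
    hκ0 hκ1 (by norm_num [hη])
  have hy1 : ∀ k, ‖y k‖ ≤ 1 := fun k => hyf.norm_le hf k
  -- evaluation maps
  let ev : E → ((E →L[𝕜] 𝕜) →ₗ[ℝ] 𝕜) := fun z =>
    { toFun := fun g => g z, map_add' := fun g g' => rfl, map_smul' := fun r g => rfl }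
  let evR : 𝕜 → E → ((E →L[𝕜] 𝕜) →L[ℝ] ℝ) := fun c z =>
    LinearMap.mkContinuous
      { toFun := fun g => RCLike.re (c * g z)
        map_add' := fun g g' => by simp [mul_add]
        map_smul' := fun r g => by
          have : (r • g) z = r • g z := rfl
          rw [this, mul_smul_comm]
          simp [RCLike.smul_re] } (‖c‖ * ‖z‖) (fun g => by
        refine (RCLike.norm_re_le_norm _).trans ?_
        rw [norm_mul]
        have := g.le_opNorm z
        have h2 := mul_le_mul_of_nonneg_left this (norm_nonneg c)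
        linarith)
  have evR_apply : ∀ c z g, evR c z g = RCLike.re (c * g z) := fun c z g => rfl
  have hyK0 : ∀ k K, K < k → y k (x K) = 0 := by
    intro k K hK
    have hsub : convexHull ℝ (f '' Set.Ici k) ⊆ {g : E →L[𝕜] 𝕜 | ev (x K) g = 0} := by
      refine convexHull_min ?_ ?_
      · rintro _ ⟨j, hj, rfl⟩
        exact hf0 j K (lt_of_lt_of_le hK hj)
      · intro a ha b hb p q _ _ _
        simp only [Set.mem_ofPred_eq] at ha hb ⊢
        rw [map_add, map_smul, map_smul, ha, hb, smul_zero, smul_zero, add_zero]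
    exact hsub (hyf k)
  have hfre : ∀ j K, 0 ≤ evR 1 (x K) (f j) := by
    intro j K
    rw [evR_apply, one_mul]
    rcases lt_or_ge K j with h | h
    · rw [hf0 j K h]; simp
    · exact le_trans (by norm_num) (hf1 j K h)
  have hyre : ∀ i K, 0 ≤ evR 1 (x K) (y i) := by
    intro i K
    have hsub : convexHull ℝ (f '' Set.Ici i) ⊆ {g : E →L[𝕜] 𝕜 | 0 ≤ evR 1 (x K) g} := by
      refine convexHull_min ?_ ?_
      · rintro _ ⟨j, _, rfl⟩
        exact hfre j K
      · intro a ha b hb p q hp hq _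
        simp only [Set.mem_ofPred_eq] at ha hb ⊢
        rw [map_add, map_smul, map_smul, smul_eq_mul, smul_eq_mul]
        positivity
    exact hsub (hyf i)
  obtain ⟨K, hK⟩ : ∃ K, ∀ K' ≥ K, (3 / 4 : ℝ) ≤ evR 1 (x K') (y 0) := by
    have hsub : convexHull ℝ (f '' Set.Ici 0) ⊆
        {g : E →L[𝕜] 𝕜 | ∃ K, ∀ K' ≥ K, (3 / 4 : ℝ) ≤ evR 1 (x K') g} := by
      refine convexHull_min ?_ ?_
      · rintro _ ⟨j, _, rfl⟩
        refine ⟨j, fun K' hK' => ?_⟩
        rw [evR_apply, one_mul]
        exact hf1 j K' hK'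
      · rintro a ⟨Ka, ha⟩ b ⟨Kb, hb⟩ p q hp hq hpq
        refine ⟨max Ka Kb, fun K' hK' => ?_⟩
        have h1 := ha K' ((le_max_left _ _).trans hK')
        have h2 := hb K' ((le_max_right _ _).trans hK')
        rw [map_add, map_smul, map_smul, smul_eq_mul, smul_eq_mul]
        nlinarith
    exact hsub (hyf 0)
  -- lower bound
  have huK : 3 / 4 + (1 - κ) * (3 / 4) ≤ evR 1 (x K) u := by
    have h1 := (evR 1 (x K)).hasSum hsum
    have h2 : (1 - κ) * (3 / 4) ≤ evR 1 (x K) (u - f 0) := by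
      have h3 := le_hasSum h1 0 (fun i _ => by
        rw [map_smul, smul_eq_mul]
        have := hyre i K
        have h4 : 0 ≤ 1 - κ := by linarith
        positivity)
      refine le_trans ?_ h3
      rw [map_smul, smul_eq_mul, pow_zero, mul_one]
      exact mul_le_mul_of_nonneg_left (hK K le_rfl) (by linarith)
    rw [map_sub] at h2
    have h3 : (3 / 4 : ℝ) ≤ evR 1 (x K) (f 0) := by
      rw [evR_apply, one_mul]; exact hf1 0 K (Nat.zero_le _)
    linarith
  have hαlow : 3 / 4 + (1 - κ) * (3 / 4) ≤ α := by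
    refine ge_of_tendsto hα ?_
    filter_upwards [eventually_gt_atTop K] with k hk
    have h1 : K < ψ k := lt_of_lt_of_le hk (hψ.id_le k)
    have h2 : evR 1 (x K) u = RCLike.re ((u - y (ψ k)) (x K)) := by
      rw [evR_apply, one_mul, sub_apply, hyK0 _ K h1, sub_zero]
    rw [h2] at huK
    refine huK.trans ((RCLike.re_le_norm _).trans ?_)
    have h3 := (u - y (ψ k)).le_opNorm (x K)
    have h4 := mul_le_mul_of_nonneg_left (hx K) (norm_nonneg (u - y (ψ k)))
    linarith
  have hα1 : 1 < α := by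
    have : (1 : ℝ) < 3 / 4 + (1 - κ) * (3 / 4) := by norm_num [hκ]
    linarith
  -- apply the key lemma
  obtain ⟨z, hz1, hz2⟩ := keyG hW (fun k => u - y (ψ k)) u α 1 hα zero_le_one hα1 (fun k => by
    rw [sub_sub_cancel_left, norm_neg]
    exact hy1 _)
  obtain ⟨φ, hφ, hφ2⟩ := extraction_forall_of_frequently
    (P := fun n k => α - 1 / ((n : ℝ) + 1) < ‖(u - y (ψ k)) z‖)
    (fun n => hz2 (1 / ((n : ℝ) + 1)) (by positivity))
  have hyz : ∀ k, ‖y k z‖ ≤ 1 := fun k => by
    have := (y k).le_of_opNorm_le (hy1 k) z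
    rwa [hz1, mul_one] at this
  obtain ⟨w, hw, χ, hχ, hχw⟩ := tendsto_subseq_of_bounded
    (Metric.isBounded_closedBall (x := (0 : 𝕜)) (r := 1))
    (x := fun n => y (ψ (φ n)) z) (fun n => by simpa using hyz _)
  rw [Metric.isClosed_closedBall.closure_eq, mem_closedBall_zero_iff] at hw
  set ω : ℕ → ℕ := fun n => ψ (φ (χ n)) with hω
  have hωt : Tendsto ω atTop atTop :=
    (hψ.tendsto_atTop.comp hφ.tendsto_atTop).comp hχ.tendsto_atTop
  have hyw : Tendsto (fun n => y (ω n) z) atTop (𝓝 w) := hχw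
  set a : ℝ := ‖u z - w‖ with ha
  have haα : α ≤ a := by
    have h1 : Tendsto (fun n => ‖u z - y (ω n) z‖) atTop (𝓝 a) :=
      (tendsto_const_nhds.sub hyw).norm
    have h2 : Tendsto (fun n : ℕ => α - 1 / ((χ n : ℝ) + 1)) atTop (𝓝 α) := by
      have h3 := (tendsto_one_div_add_atTop_nhds_zero_nat (𝕜 := ℝ)).comp hχ.tendsto_atTop
      simpa using (tendsto_const_nhds (x := α)).sub h3
    refine le_of_tendsto_of_tendsto' h2 h1 fun n => ?_
    exact (hφ2 (χ n)).le
  obtain ⟨c, hc1, hc2⟩ := exists_rot (u z - w)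
  set t : ℕ → ℝ := fun i => RCLike.re (c * ((f 0 + y i) z - w)) with ht
  have hfz : ‖f 0 z‖ ≤ 1 := by
    have := (f 0).le_of_opNorm_le (hf 0) z
    rwa [hz1, mul_one] at this
  have ht3 : ∀ i, |t i| ≤ 3 := by
    intro i
    refine (RCLike.abs_re_le_norm _).trans ?_
    rw [norm_mul, hc1, one_mul, add_apply]
    refine (norm_sub_le _ _).trans ?_
    have := norm_add_le (f 0 z) (y i z)
    linarith [hyz i]
  have hgeo : HasSum (fun i : ℕ => (1 - κ) * κ ^ i) 1 := by
    have := (hasSum_geometric_of_lt_one hκ0.le hκ1).mul_left (1 - κ)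
    rwa [mul_inv_cancel₀ (by linarith)] at this
  have hts : HasSum (fun i => (1 - κ) * κ ^ i * t i) a := by
    have h1 := (evR c z).hasSum hsum
    have h2 := hgeo.mul_right (RCLike.re (c * (f 0 z - w)))
    have h3 := h1.add h2
    have e1 : (evR c z) (u - f 0) + 1 * RCLike.re (c * (f 0 z - w)) = a := by
      rw [evR_apply, sub_apply, one_mul, ← map_add, ← mul_add]
      have : u z - f 0 z + (f 0 z - w) = u z - w := by ring
      rw [this, hc2, RCLike.ofReal_re]
    rw [e1] at h3
    convert h3 using 1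
    funext i
    have e2 : t i = evR c z (y i) + RCLike.re (c * (f 0 z - w)) := by
      simp only [ht]
      rw [evR_apply, add_apply, ← map_add, ← mul_add]
      congr 2
      ring
    rw [map_smul, smul_eq_mul, e2]
    ring
  have hgeofin : ∀ n, ∑ i ∈ range n, (1 - κ) * κ ^ i + κ ^ n = 1 := by
    intro n
    induction n with
    | zero => simp
    | succ n ih =>
      rw [Finset.sum_range_succ, pow_succ]
      linarith
  have htb : ∀ n, ∑ i ∈ range n, (1 - κ) * κ ^ i * t i + κ ^ n * t n ≤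
      a + η * κ ^ (n + 1) * (1 / 2) ^ (n + 1) := by
    intro n
    set g : E →L[𝕜] 𝕜 := f 0 + ∑ i ∈ range n, ((1 - κ) * κ ^ i) • y i + κ ^ n • y n with hg
    have h1 : ‖g z - w‖ ≤ α + η * κ ^ (n + 1) * (1 / 2) ^ (n + 1) := by
      have h2 : Tendsto (fun j => ‖g z - y (ω j) z‖) atTop (𝓝 ‖g z - w‖) :=
        (tendsto_const_nhds.sub hyw).norm
      refine le_of_tendsto h2 ?_
      filter_upwards [hωt.eventually (hb n)] with j hj
      have h3 := (g - y (ω j)).le_of_opNorm_le hj z
      rwa [hz1, mul_one] at h3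
    have h2 : ∑ i ∈ range n, (1 - κ) * κ ^ i * t i + κ ^ n * t n = RCLike.re (c * (g z - w)) := by
      have e1 : RCLike.re (c * (g z - w)) = evR c z g - RCLike.re (c * w) := by
        rw [evR_apply, mul_sub, map_sub]
      have e2 : ∀ i, t i = evR c z (f 0) + evR c z (y i) - RCLike.re (c * w) := by
        intro i
        rw [evR_apply, evR_apply, ← map_add, ← map_sub, ← mul_add, ← mul_sub]
        rfl
      rw [e1, hg, map_add, map_add, map_sum]
      simp only [map_smul, smul_eq_mul]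
      have e3 : ∑ i ∈ range n, (1 - κ) * κ ^ i * t i =
          ∑ i ∈ range n, (1 - κ) * κ ^ i * evR c z (y i) +
          (∑ i ∈ range n, (1 - κ) * κ ^ i) * (evR c z (f 0) - RCLike.re (c * w)) := by
        rw [Finset.sum_mul, ← Finset.sum_add_distrib]
        refine Finset.sum_congr rfl fun i _ => ?_
        rw [e2]; ring
      rw [e3, e2 n]
      have e4 := hgeofin n
      have e5 : ∑ i ∈ range n, (1 - κ) * κ ^ i = 1 - κ ^ n := by linarith
      rw [e5]
      ring
    rw [h2]
    have h3 : RCLike.re (c * (g z - w)) ≤ ‖g z - w‖ := by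
      refine (RCLike.re_le_norm _).trans ?_
      rw [norm_mul, hc1, one_mul]
    linarith
  have hfin : ∀ n, a - η - 3 * κ ≤ t n := fun n =>
    real_lemma κ η a hκ0 hκ1 (by norm_num [hη]) t ht3 hts htb n (by
      have : (1 : ℝ) ≤ 3 / 4 + (1 - κ) * (3 / 4) := by norm_num [hκ]
      have h2 : η + 3 * κ ≤ 1 := by norm_num [hκ, hη]
      linarith)
  have hlim : Tendsto (fun j => t (ω j)) atTop (𝓝 (RCLike.re (c * f 0 z))) := by
    have h1 : Tendsto (fun j => c * (f 0 z + y (ω j) z - w)) atTop (𝓝 (c * f 0 z)) := by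
      have h2 := ((tendsto_const_nhds (x := f 0 z)).add hyw).sub (tendsto_const_nhds (x := w))
      have h3 := h2.const_mul c
      have e : f 0 z + w - w = f 0 z := by ring
      rwa [e] at h3
    exact (RCLike.continuous_re.tendsto _).comp h1
  have h1 : a - η - 3 * κ ≤ RCLike.re (c * f 0 z) := ge_of_tendsto' hlim fun j => hfin _
  have h2 : RCLike.re (c * f 0 z) ≤ 1 := by
    refine (RCLike.re_le_norm _).trans ?_
    rw [norm_mul, hc1, one_mul]
    exact hfz
  have h3 : (1 : ℝ) < 3 / 4 + (1 - κ) * (3 / 4) - η - 3 * κ := by norm_num [hκ, hη]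
  have h4 : (1 : ℝ) < a - η - 3 * κ := by
    refine h3.trans_le ?_
    exact sub_le_sub_right (sub_le_sub_right (hαlow.trans haα) _) _
  exact absurd (h4.trans_le h1) (not_lt.2 h2)

end Pool.Agent.N242.WM
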